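import Pool.Agent.U587.PW.Two

/-!
# Quantum ergodicity along sparse index sequences of one fixed eigenbasis

Let `ν 1, ν 2, ...` be probability measures on a space `M`, for example `ν j = |φ_j|² dvol` for an orthonormal basis of
eigenfunctions of the Laplacian of a compact Riemannian manifold, ordered by eigenvalue, and assume that they converge
weakly to `ν'` along a set of indices of density one. For manifolds with ergodic geodesic flow, in particular of
negative curvature, and `ν'` the uniform measure, this is the quantum ergodicity theorem.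

Let `d ≥ 1`, let `Θ` be a countable set of exponents in `(0, d]` and `S` a countable set of real polynomials of degrees
in `[1, d]` with positive leading coefficient. There is ONE set `D` of real numbers, of Hausdorff dimension at most
`1 - 1 / (2^(4 d + 6) d) < 1`, such that for ALL `a > 0` outside of `D`, all `θ` in `Θ` and all `P` in `S` the measures
`ν [a n^θ]` and `ν [a P(n)]`, `n = 1, 2, ...`, converge weakly to `ν'` along sets of `n` of density one.

For `θ > 1` (degree at least two) the indices `[a n^θ]` form a set of density zero, and the quantum ergodicity theorem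
says nothing about them: all of them could be exceptional.

Proof. The exceptional indices have density zero, and the averages of their indicator function along `[a n^θ]` tend to
zero for all `a > 0` off a set of dimension less than one, by the sampling theorem `seq_case`.
-/

set_option autoImplicit false

namespace Pool.Agent.Results.MP_07c750_an.ExceptionalIndices

open Filter Topology MeasureTheory

/-- the set `J` has density one -/
def DensityOne (J : Set ℕ) : Prop :=
  Tendsto (fun N : ℕ => (((Finset.Icc 1 N : Set ℕ) ∩ J).ncard : ℝ) / (N : ℝ)) atTop (𝓝 1)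

/-- `ν` converges weakly to `ν'` along a set of indices of density one -/
def ConvergesOffDensityZero {M : Type} [TopologicalSpace M] [MeasurableSpace M] [OpensMeasurableSpace M]
    (ν : ℕ → ProbabilityMeasure M) (ν' : ProbabilityMeasure M) : Prop :=
  ∃ J : Set ℕ, DensityOne J ∧ Tendsto ν (atTop ⊓ 𝓟 J) (𝓝 ν')

open Classical in
lemma sum_ind (J : Set ℕ) (k : ℕ → ℕ) (N : ℕ) :
    (1 / (N : ℂ)) * ∑ n ∈ Finset.Icc 1 N, (if k n ∈ J then (1 : ℂ) else 0) =
      (((((Finset.Icc 1 N : Set ℕ) ∩ {n | k n ∈ J}).ncard : ℝ) / (N : ℝ) : ℝ) : ℂ) := by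
  have h1 : ((Finset.Icc 1 N : Set ℕ) ∩ {n | k n ∈ J}) = ((Finset.Icc 1 N).filter fun n => k n ∈ J : Finset ℕ) := by
    ext n
    simp
  rw [h1, Set.ncard_coe_finset, Finset.sum_ite, Finset.sum_const_zero, add_zero, Finset.sum_const, nsmul_eq_mul,
    mul_one]
  push_cast
  ring

open Classical in
/-- the preimage of a set of density one -/
theorem dens_one {p : ℝ → ℝ} {d : ℕ} (hd0 : 0 < d) (hp : Pool.Agent.U587.PW.Dat p d) {J : Set ℕ} (hJ : DensityOne J) :
    ∃ D : Set ℝ, dimH D ≤ ENNReal.ofReal (1 - 1 / (2 ^ (4 * d + 6) * (d : ℝ))) ∧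
      ∀ a : ℝ, 0 < a → a ∉ D → DensityOne {n | ⌊a * p n⌋₊ ∈ J} := by
  have hb : ∀ n : ℕ, ‖(fun m : ℕ => if m ∈ J then (1 : ℂ) else 0) n‖ ≤ 1 := by
    intro n
    dsimp only
    split_ifs <;> simp
  have hL : Tendsto (fun M : ℕ => (1 / (M : ℂ)) * ∑ m ∈ Finset.Icc 1 M, (fun m : ℕ => if m ∈ J then (1 : ℂ) else 0) m)
      atTop (𝓝 1) := by
    have h2 := (Complex.continuous_ofReal.tendsto 1).comp hJ
    rw [Complex.ofReal_one] at h2
    refine h2.congr fun N => ?_
    have h3 := sum_ind J (fun n => n) N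
    rw [h3]
    rfl
  obtain ⟨D, hD, h⟩ := Pool.Agent.U587.PW.seq_case hd0 hp hb hL
  refine ⟨D, ?_, fun a ha haD => ?_⟩
  · refine hD.trans (le_of_eq ?_)
    unfold Pool.Agent.U587.PT.dk Pool.Agent.U587.PT.kD
    congr 2
    push_cast
    rfl
  · have h2 := (Complex.continuous_re.tendsto 1).comp (h a ha haD)
    rw [Complex.one_re] at h2
    unfold DensityOne
    refine h2.congr fun N => ?_
    have h3 := sum_ind J (fun n : ℕ => ⌊a * p n⌋₊) N
    simp only [Function.comp_def]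
    rw [h3, Complex.ofReal_re]

/-- one sequence of indices -/
theorem one_seq {M : Type} [TopologicalSpace M] [MeasurableSpace M] [OpensMeasurableSpace M]
    {ν : ℕ → ProbabilityMeasure M} {ν' : ProbabilityMeasure M} (h : ConvergesOffDensityZero ν ν')
    {p : ℝ → ℝ} {d : ℕ} (hd0 : 0 < d) (hp : Pool.Agent.U587.PW.Dat p d) (hpt : Tendsto (fun n : ℕ => p n) atTop atTop) :
    ∃ D : Set ℝ, dimH D ≤ ENNReal.ofReal (1 - 1 / (2 ^ (4 * d + 6) * (d : ℝ))) ∧
      ∀ a : ℝ, 0 < a → a ∉ D → ConvergesOffDensityZero (fun n => ν ⌊a * p n⌋₊) ν' := by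
  obtain ⟨J, hJ, hν⟩ := h
  obtain ⟨D, hD, hDa⟩ := dens_one hd0 hp hJ
  refine ⟨D, hD, fun a ha haD => ⟨_, hDa a ha haD, ?_⟩⟩
  refine hν.comp (f := fun n : ℕ => ⌊a * p n⌋₊) ?_
  refine tendsto_inf.2 ⟨?_, ?_⟩
  · exact (tendsto_nat_floor_atTop.comp (hpt.const_mul_atTop ha)).mono_left inf_le_left
  · rw [tendsto_principal]
    exact eventually_inf_principal.2 (Eventually.of_forall fun n hn => hn)

/-- **Quantum ergodicity along `[a n^θ]` and `[a P(n)]`, for all `a > 0` outside a set of dimension at most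
`1 - 1 / (2^(4 d + 6) d)`** -/
theorem result {M : Type} [TopologicalSpace M] [MeasurableSpace M] [OpensMeasurableSpace M]
    (ν : ℕ → ProbabilityMeasure M) (ν' : ProbabilityMeasure M) (h : ConvergesOffDensityZero ν ν') (d : ℕ)
    (Θ : Set ℝ) (hΘ : Θ.Countable) (hΘd : ∀ θ ∈ Θ, 0 < θ ∧ θ ≤ d)
    (S : Set (Polynomial ℝ)) (hS : S.Countable)
    (hSd : ∀ P ∈ S, 0 < P.natDegree ∧ P.natDegree ≤ d ∧ 0 < P.leadingCoeff) :
    ∃ D : Set ℝ, dimH D ≤ ENNReal.ofReal (1 - 1 / (2 ^ (4 * d + 6) * (d : ℝ))) ∧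
      ∀ a : ℝ, 0 < a → a ∉ D →
        (∀ θ ∈ Θ, ConvergesOffDensityZero (fun n : ℕ => ν ⌊a * (n : ℝ) ^ θ⌋₊) ν') ∧
        ∀ P ∈ S, ConvergesOffDensityZero (fun n : ℕ => ν ⌊a * P.eval (n : ℝ)⌋₊) ν' := by
  have hex1 : ∀ θ : Θ, ∃ D : Set ℝ, dimH D ≤ ENNReal.ofReal (1 - 1 / (2 ^ (4 * d + 6) * (d : ℝ))) ∧
      ∀ a : ℝ, 0 < a → a ∉ D → ConvergesOffDensityZero (fun n : ℕ => ν ⌊a * (n : ℝ) ^ θ.1⌋₊) ν' := by
    rintro ⟨θ, hθ⟩
    obtain ⟨hθ0, hθd⟩ := hΘd θ hθ
    have hd0 : 0 < d := by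
      rcases Nat.eq_zero_or_pos d with h | h
      · rw [h, Nat.cast_zero] at hθd
        linarith
      · exact h
    exact one_seq h hd0 (Pool.Agent.U587.PW.dat_pow hθ0 hθd) ((tendsto_rpow_atTop hθ0).comp tendsto_natCast_atTop_atTop)
  have hex2 : ∀ P : S, ∃ D : Set ℝ, dimH D ≤ ENNReal.ofReal (1 - 1 / (2 ^ (4 * d + 6) * (d : ℝ))) ∧
      ∀ a : ℝ, 0 < a → a ∉ D → ConvergesOffDensityZero (fun n : ℕ => ν ⌊a * P.1.eval (n : ℝ)⌋₊) ν' := by
    rintro ⟨P, hP⟩
    obtain ⟨h1, h2, h3⟩ := hSd P hP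
    exact one_seq h (lt_of_lt_of_le h1 h2) (Pool.Agent.U587.PW.dat_poly h1 h3 h2)
      ((P.tendsto_atTop_of_leadingCoeff_nonneg (Polynomial.natDegree_pos_iff_degree_pos.1 h1) h3.le).comp
        tendsto_natCast_atTop_atTop)
  choose D1 hD1 k1 using hex1
  choose D2 hD2 k2 using hex2
  have := hΘ.to_subtype
  have := hS.to_subtype
  refine ⟨(⋃ θ, D1 θ) ∪ ⋃ P, D2 P, ?_, fun a ha haD => ?_⟩
  · rw [dimH_union, dimH_iUnion, dimH_iUnion]
    exact max_le (iSup_le fun θ => hD1 θ) (iSup_le fun P => hD2 P)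
  · simp only [Set.mem_union, Set.mem_iUnion, not_or, not_exists] at haD
    exact ⟨fun θ hθ => k1 ⟨θ, hθ⟩ a ha (haD.1 _), fun P hP => k2 ⟨P, hP⟩ a ha (haD.2 _)⟩

end Pool.Agent.Results.MP_07c750_an.ExceptionalIndices
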