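import Pool.Agent.U524.SN.Mom
import Pool.Agent.W745.RW.Stm

/-!
# Quantum limits and the maximum of eigenfunctions on surfaces (MP_07c750_an)

A Riemannian surface in isothermal coordinates: an open set `Ω ⊆ ℂ` with the metric `ρ |dz|²`, area
measure `ρ dx dy`. `dx f z`, `dy f z` are the partial derivatives, `lap f = dx (dx f) + dy (dy f)`;
`TF U χ` says that `χ : ℂ → ℝ` is smooth with compact support contained in `U`. No curvature
assumption is needed. Every point of a closed surface has a neighbourhood of this form.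

The theorem. (1) Local averages of `u²` are asymptotically at most half of the local maximum of `u²`:
for every open set `U`, test function `χ ≥ 0` in `U` and `ε > 0`,
`∫ χ u² dvol ≤ (M²/2) ∫ χ dvol + ε` for all large `λ` and all eigenfunctions `u` with `|u| ≤ M` on `U`.
(2) Consequently, if `u_n² dvol` converges to a measure `ν` and `|u n| ≤ M` on `U` for infinitely many
`n`, then `ν ≤ (M²/2) dvol` on `U`. (3) Sequences with the least possible maxima are equidistributed: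
if `ν` is the limit of `u_n² dvol`, if `c ≥ 0` and for every `M > 0` with `M² > 2 c` eventually
`|u n| ≤ M` on `U`, and if `∫ χ₀ dν = c ∫ χ₀ dvol` for one test function `χ₀` in `U`, then
`∫ χ dν = c ∫ χ dvol` for all test functions `0 ≤ χ ≤ χ₀`.

Here it is normal that the maxima tend to infinity; the constant is attained by plane waves on flat
tori. Proof. `|∇u|² / λ ≤ (1 + o(1)) (M² - u²)` on compact subsets of `U` (maximum principle, see the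
file `SupNorms` of MP_a52643_an), multiplied by `χ` and integrated by parts.
-/

set_option autoImplicit false
open MeasureTheory Filter Topology Complex
open scoped ContDiff

namespace Pool.Agent.Results.MP_07c750_an.HalfOfTheMaximum

open Pool.Agent.W745.RW (lap dx dy TF)

noncomputable section

/-- `u` is a smooth solution of `Δu + lam u = 0` on `U` for the metric `ρ |dz|²` -/
def IsEigen (U : Set ℂ) (ρ : ℂ → ℝ) (lam : ℝ) (u : ℂ → ℝ) : Prop :=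
  ContDiffOn ℝ ∞ u U ∧ ∀ z ∈ U, lap u z + lam * (ρ z * u z) = 0

/-- `∫ φ dvol` -/
def integ (ρ φ : ℂ → ℝ) : ℝ := ∫ z, φ z * ρ z

/-- `u_n² dvol` converges to the measure `ν` on `Ω` -/
def QuantumLimit (Ω : Set ℂ) (ρ : ℂ → ℝ) (u : ℕ → ℂ → ℝ) (ν : Measure ℂ) : Prop :=
  ∀ φ, TF Ω φ → Tendsto (fun n => integ ρ fun z => φ z * u n z ^ 2) atTop (𝓝 (∫ z, φ z ∂ν))

theorem part1 {U : Set ℂ} (hU : IsOpen U) {ρ : ℂ → ℝ} (hρ : ContDiffOn ℝ ∞ ρ U)
    (hρ0 : ∀ z ∈ U, 0 < ρ z) {χ : ℂ → ℝ} (hχ : TF U χ) (hχ0 : ∀ z, 0 ≤ χ z) (M : ℝ) {ε : ℝ}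
    (hε : 0 < ε) :
    ∀ᶠ lam : ℝ in atTop, ∀ u : ℂ → ℝ, IsEigen U ρ lam u → (∀ z ∈ U, |u z| ≤ M) →
      integ ρ (fun z => χ z * u z ^ 2) ≤ M ^ 2 / 2 * integ ρ χ + ε := by
  filter_upwards [Pool.Agent.U524.SN.moment hU 0 hρ hρ0 hχ.1 hχ.2.1 hχ.2.2 hχ0 M
    (show (0 : ℝ) < 2 * ε by linarith)] with lam h1
  intro u hu hM
  have h2 := h1 u hu.1 hu.2 hM
  norm_num at h2
  have e1 : integ ρ (fun z => χ z * u z ^ 2) = ∫ z, χ z * (ρ z * u z ^ 2) := by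
    unfold integ
    congr 1; funext z; ring
  rw [e1]
  show _ ≤ M ^ 2 / 2 * (∫ z, χ z * ρ z) + ε
  linarith

/-- **Result.** See the head of the file. -/
theorem result (Ω : Set ℂ) (ρ : ℂ → ℝ) (hρ : ContDiffOn ℝ ∞ ρ Ω) (hρ0 : ∀ z ∈ Ω, 0 < ρ z)
    (U : Set ℂ) (hU : IsOpen U) (hUΩ : U ⊆ Ω) :
    -- (1) uniform in the eigenfunction
    (∀ χ : ℂ → ℝ, TF U χ → (∀ z, 0 ≤ χ z) → ∀ M ε : ℝ, 0 < ε →
      ∀ᶠ lam : ℝ in atTop, ∀ u : ℂ → ℝ, IsEigen U ρ lam u → (∀ z ∈ U, |u z| ≤ M) →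
        integ ρ (fun z => χ z * u z ^ 2) ≤ M ^ 2 / 2 * integ ρ χ + ε) ∧
    ∀ (lam : ℕ → ℝ) (u : ℕ → ℂ → ℝ) (ν : Measure ℂ), IsLocallyFiniteMeasure ν →
      Tendsto lam atTop atTop → (∀ n, IsEigen Ω ρ (lam n) (u n)) → QuantumLimit Ω ρ u ν →
      -- (2) quantum limits
      (∀ M : ℝ, (∃ᶠ n in atTop, ∀ z ∈ U, |u n z| ≤ M) → ∀ χ, TF U χ → (∀ z, 0 ≤ χ z) →
        ∫ z, χ z ∂ν ≤ M ^ 2 / 2 * integ ρ χ) ∧
      -- (3) the case of equality
      (∀ c : ℝ, 0 ≤ c →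
        (∀ M : ℝ, 0 < M → 2 * c < M ^ 2 → ∀ᶠ n in atTop, ∀ z ∈ U, |u n z| ≤ M) →
        ∀ χ₀, TF U χ₀ → ∫ z, χ₀ z ∂ν = c * integ ρ χ₀ →
        ∀ χ, TF U χ → (∀ z, 0 ≤ χ z ∧ χ z ≤ χ₀ z) → ∫ z, χ z ∂ν = c * integ ρ χ) := by
  refine ⟨fun χ hχ hχ0 M ε hε => part1 hU (hρ.mono hUΩ) (fun z hz => hρ0 z (hUΩ hz)) hχ hχ0 M hε,
    ?_⟩
  intro lam u ν hν hlam hu hql
  have h2 : ∀ M : ℝ, (∃ᶠ n in atTop, ∀ z ∈ U, |u n z| ≤ M) → ∀ χ, TF U χ → (∀ z, 0 ≤ χ z) →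
      ∫ z, χ z ∂ν ≤ M ^ 2 / 2 * integ ρ χ := by
    intro M hM χ hχ hχ0
    refine le_of_forall_pos_le_add fun ε hε => ?_
    have h3 := hlam.eventually (part1 hU (hρ.mono hUΩ) (fun z hz => hρ0 z (hUΩ hz)) hχ hχ0 M hε)
    have h4 := hql χ ⟨hχ.1, hχ.2.1, hχ.2.2.trans hUΩ⟩
    refine le_of_tendsto_of_frequently h4 ?_
    refine (hM.and_eventually h3).mono fun n hn => ?_
    exact hn.2 (u n) ⟨(hu n).1.mono hUΩ, fun z hz => (hu n).2 z (hUΩ hz)⟩ hn.1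
  refine ⟨h2, ?_⟩
  intro c hc0 hc χ₀ hχ₀ he χ hχ hχ0
  -- the upper bound with the constant `c`
  have h3 : ∀ φ, TF U φ → (∀ z, 0 ≤ φ z) → ∫ z, φ z ∂ν ≤ c * integ ρ φ := by
    intro φ hφ hφ0
    have hI : 0 ≤ integ ρ φ := by
      refine integral_nonneg fun z => ?_
      by_cases hz : z ∈ tsupport φ
      · exact mul_nonneg (hφ0 z) (hρ0 z (hUΩ (hφ.2.2 hz))).le
      · show 0 ≤ φ z * ρ z
        rw [image_eq_zero_of_notMem_tsupport hz, zero_mul]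
    refine le_of_forall_pos_le_add fun ε hε => ?_
    -- a bound `M² = 2 c' > 2 c`
    set η : ℝ := ε / (integ ρ φ + 1) with hη
    have hη0 : 0 < η := by positivity
    have hposv : 0 < 2 * (c + η) := by linarith
    have h5 := h2 (√(2 * (c + η))) (hc _ (Real.sqrt_pos.2 hposv) (by
      rw [Real.sq_sqrt hposv.le]
      linarith)).frequently φ hφ hφ0
    rw [Real.sq_sqrt hposv.le] at h5
    have h8 : η * integ ρ φ ≤ ε := by
      rw [hη, div_mul_eq_mul_div, div_le_iff₀ (by positivity)]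
      nlinarith
    linarith
  have i1 : ∀ φ, TF U φ → Integrable φ ν := fun φ hφ =>
    hφ.1.continuous.integrable_of_hasCompactSupport hφ.2.1
  have i2 : ∀ φ, TF U φ → Integrable (fun z => φ z * ρ z) := fun φ hφ =>
    Pool.Agent.U524.SN.int_prod hU hφ.1.continuous hφ.2.1 hφ.2.2 (hρ.mono hUΩ).continuousOn
  have hd : TF U (fun z => χ₀ z - χ z) :=
    ⟨hχ₀.1.sub hχ.1, hχ₀.2.1.sub hχ.2.1,
      (tsupport_sub χ₀ χ).trans (Set.union_subset hχ₀.2.2 hχ.2.2)⟩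
  have h4 := h3 _ hd fun z => sub_nonneg.2 (hχ0 z).2
  have h5 := h3 χ hχ fun z => (hχ0 z).1
  have e1 : ∫ z, χ₀ z - χ z ∂ν = (∫ z, χ₀ z ∂ν) - ∫ z, χ z ∂ν := integral_sub (i1 _ hχ₀) (i1 _ hχ)
  have e2 : integ ρ (fun z => χ₀ z - χ z) = integ ρ χ₀ - integ ρ χ := by
    unfold integ
    rw [← integral_sub (i2 _ hχ₀) (i2 _ hχ)]
    congr 1; funext z; ring
  rw [e1, e2, he, mul_sub] at h4
  linarith

end

end Pool.Agent.Results.MP_07c750_an.HalfOfTheMaximum
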