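import Pool.Agent.U34.BW.Balls

/-!
# Quantum unique ergodicity on all small balls after arbitrarily small perturbations
(MP_07c750_an)

Let `X` be a compact Riemannian manifold of dimension `d = q ≥ 2`, of negative curvature or not, with
the normalised volume `μ`, the real Laplace eigenfunctions `φ i` (orthonormal in `L²(μ)`) and the
eigenvalues `om i ^ 2`. More generally, let `X` be a metric space with a probability measure whose
balls have the usual geometry (`Geo`: `μ (B(x, r)) ≥ c r ^ q`, `μ (B(x, r + s)) ≤ (1 + A s / r) μ (B(x, r))`,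
covering numbers `≤ A t ^ (-q)`), `φ i` real orthonormal functions and `0 ≤ om 0 ≤ om 1 ≤ ...`, with
Weyl's law `om n ^ d = κ n + O(n ^ θ)` and the uniform local Weyl law
`∑_{i < n} φ i x ^ 2 = n + O(n ^ θ)`, `0 < θ < 1` (compact manifolds: `θ = 1 - 1/d`, Avakumović,
Levitan, Hörmander).

Let `D φ i = om i ^ 2 φ i`. For every `ε > 0`, `σ > 1 - d (1 - θ) / 2` (manifolds: `σ > 1/2`) and
`γ > 0` with `5 γ q < θ` there is a symmetric operator `k` with `‖k a‖ ≤ ε ‖(1 + D) ^ σ a‖` such that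
`D + k` has a simple spectrum `lam' 0 < lam' 1 < ...`, `|lam' j - om j ^ 2| ≤ ε`, and an orthonormal
basis of eigenfunctions `v j` (real, finite combinations of the `φ i`, unique up to the signs), and

* quantum unique ergodicity holds for `D + k`: `∫_U v j ^ 2 dμ → μ U` for every open set `U` whose
  boundary has measure `0`, along the full sequence;
* it holds at a polynomially small scale, uniformly in the centre of the ball:
  `∫_{B(x, r)} v j ^ 2 dμ = (1 + o(1)) μ (B(x, r))`, `r = (j + 1) ^ (-γ)`, uniformly for ALL `x`.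

Proof: blocks of `N = 2 ^ m ≈ b ^ θ'` consecutive functions, `θ < θ'`, are mixed by a Hadamard matrix
and signs. For a set `E` the mass `∫_E v j ^ 2` has the mean `∑ ∫_E φ i ^ 2 / N` with respect to the
signs, and its discrete gradient has the square at most `64 / N`, by Bessel's inequality. The
fourth moments then give signs which are good for all `j` in the block and all balls of two radii
`r ± t` around the points of a `t`-net, `t = o(r)`, and every ball `B(x, r)` lies between two of them.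
-/

set_option autoImplicit false

open MeasureTheory Filter Topology
open Pool.Agent.U34.BW

namespace Pool.Agent.Results.MP_07c750_an.SmallBalls

/-- **Quantum unique ergodicity on all small balls after arbitrarily small perturbations.** -/
theorem result (X : Type) [MeasurableSpace X] [MetricSpace X] [SecondCountableTopology X]
    [OpensMeasurableSpace X] (μ : Measure X) [IsProbabilityMeasure μ] (φ : ℕ → X → ℝ)
    (om : ℕ → ℝ) (d : ℕ) (hd : 2 ≤ d) (θ : ℝ) (hθ0 : 0 < θ) (hθ1 : θ < 1) (h : ONF μ φ)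
    (hmono : Monotone om) (h0 : 0 ≤ om 0)
    (hweyl : ∃ κ C : ℝ, 0 < κ ∧ ∀ n : ℕ, |om n ^ d - κ * n| ≤ C * ((n : ℝ) + 1) ^ θ)
    (hlaw : ∃ C : ℝ, ∀ᵐ x ∂μ, ∀ n : ℕ,
      |∑ i ∈ Finset.range n, φ i x ^ 2 - n| ≤ C * ((n : ℝ) + 1) ^ θ)
    (q c A : ℝ) (hG : Geo μ q c A)
    (σ ε : ℝ) (hσ0 : 0 ≤ σ) (hσ : 1 - d * (1 - θ) / 2 < σ) (hε : 0 < ε)
    (γ : ℝ) (hγ : 0 < γ) (hγθ : 5 * γ * q < θ) :
    ∃ (k u : ℕ → ℕ → ℝ) (I : ℕ → Finset ℕ) (lam' : ℕ → ℝ),
      Perturb (fun i => om i ^ 2) ε σ k u I lam' ∧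
      (∀ U : Set X, IsOpen U → μ (frontier U) = 0 →
        Tendsto (fun j => ∫ x in U, (∑ i ∈ I j, u j i * φ i x) ^ 2 ∂μ) atTop (𝓝 (μ.real U))) ∧
      ∀ δ : ℝ, 0 < δ → ∀ᶠ j : ℕ in atTop, ∀ x : X,
        |∫ p in Metric.ball x (((j : ℝ) + 1) ^ (-γ)), (∑ i ∈ I j, u j i * φ i p) ^ 2 ∂μ -
          μ.real (Metric.ball x (((j : ℝ) + 1) ^ (-γ)))| ≤
          δ * μ.real (Metric.ball x (((j : ℝ) + 1) ^ (-γ))) :=
  balls hd hθ0 hθ1 hσ0 hσ hε h hmono h0 hweyl hlaw hG hγ hγθ

end Pool.Agent.Results.MP_07c750_an.SmallBalls
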