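import Pool.Agent.Y264.QR.All
import Pool.Agent.U317.SQ.A

/-!
# Quantum ergodicity along sparse sequences of eigenvalues for random conformal metrics

Let `(M, g)` be a closed surface with a continuous Riemannian metric (for instance a smooth metric
of negative curvature). For a continuous function `φ` on `M` consider the metric `exp φ · g` and an
arbitrary orthonormal basis `u φ 0, u φ 1, ...` of `L²` which consists of eigenfunctions of its
Laplacian, ordered by the eigenvalue. Let `P` be a Borel probability measure on `C(M)` which is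
quasi-invariant under the translations by the multiples of the functions of a set `S` with dense
linear span (for instance a nondegenerate Gaussian measure).

Let `J k → ∞` be any sequence of indices, however sparse. Then there is a deterministic
subsequence of `J` such that for `P`-almost every metric the probability measures `(u φ j)² dA_φ`
converge weakly-* in the mean (Cesàro means) to the uniform measure along this subsequence, and
along each of its further subsequences.

In particular, for `P`-almost every metric the uniform measure is in the closed convex hull of the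
quantum limits of the sequence `J`, and for each continuous `f` the lower limit of the masses
`∫ f (u φ (J k))² dA_φ` is at most the mean value of `f` and their upper limit at least.

The quantum ergodicity theorem says nothing on sequences of density zero. The first statement of
`RandomConformalMetrics` (weak convergence in `L¹ (P)`) is used; it permits to choose indices such
that the deviations of the masses are almost uncorrelated, and a strong law of large numbers holds
for them (as in the theorem of Komlós and Révész).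
-/

set_option autoImplicit false

open Set Filter Topology MeasureTheory
open Pool.Agent.Y262.QE

noncomputable section

namespace Pool.Agent.Results.MP_07c750_an.SparseSequences

/-- `u 0, u 1, ...` is an orthonormal basis of `L² (μ)` which consists of eigenfunctions of the
Laplacian of the surface `D` with the area `μ`; the eigenvalues `lam 0 ≤ lam 1 ≤ ...` are ordered -/
structure IsEigenbasis {M : Type} [MeasurableSpace M] (D : Data M) (μ : Measure M)
    (u : ℕ → M → ℝ) (lam : ℕ → ℝ) : Prop where
  eig : ∀ j, D.IsEig μ (lam j) (u j)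
  mono : Monotone lam
  orth : ∀ i j, ∫ x, u i x * u j x ∂μ = if i = j then 1 else 0
  total : ∀ f : M → ℝ, MemLp f 2 μ → (∀ j, ∫ x, f x * u j x ∂μ = 0) → f =ᵐ[μ] 0

/-- the surface with the metric `exp φ · g` -/
def surf {M : Type} [TopologicalSpace M] (D : Data M) (φ : C(M, ℝ)) : Data M :=
  D.conf fun x => Real.exp (φ x)

/-- the area of the metric `exp φ · g` -/
def area {M : Type} [TopologicalSpace M] [MeasurableSpace M] (μ : Measure M) (φ : C(M, ℝ)) :
    Measure M :=
  wm μ fun x => Real.exp (φ x)

/-- the integral of `f v²` for the area of `exp φ · g` -/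
def mass {M : Type} [TopologicalSpace M] [MeasurableSpace M] (μ : Measure M)
    (f φ : C(M, ℝ)) (v : M → ℝ) : ℝ :=
  ∫ x, f x * (v x) ^ 2 ∂(area μ φ)

/-- the mean value of `f` for the area of `exp φ · g` -/
def mean {M : Type} [TopologicalSpace M] [MeasurableSpace M] (μ : Measure M)
    (f φ : C(M, ℝ)) : ℝ :=
  (∫ x, f x ∂(area μ φ)) / (area μ φ).real univ

theorem mass_le {M : Type} [MetricSpace M] [CompactSpace M] [MeasurableSpace M] [BorelSpace M]
    (μ : Measure M) (f φ : C(M, ℝ)) (v : M → ℝ) (hv : ∫ x, v x * v x ∂(area μ φ) = 1) :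
    |mass μ f φ v| ≤ ‖f‖ := by
  have hi : Integrable (fun x => v x * v x) (area μ φ) := by
    by_contra h
    rw [integral_undef h] at hv
    exact zero_ne_one hv
  unfold mass
  calc |∫ x, f x * (v x) ^ 2 ∂(area μ φ)| ≤ ∫ x, ‖f‖ * (v x * v x) ∂(area μ φ) := by
        rw [← Real.norm_eq_abs]
        refine norm_integral_le_of_norm_le (hi.const_mul _) (Eventually.of_forall fun x => ?_)
        rw [norm_mul, ← sq, Real.norm_eq_abs ((v x) ^ 2), abs_of_nonneg (sq_nonneg (v x))]
        exact mul_le_mul_of_nonneg_right (f.norm_coe_le_norm x) (sq_nonneg _)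
    _ = ‖f‖ := by rw [integral_const_mul, hv, mul_one]

/-- **Quantum ergodicity along sparse sequences.** Every sequence of indices which tends to infinity
has a subsequence such that almost surely, along each further subsequence, the Cesàro means of the
measures `u²` converge weakly-* to the uniform measure. -/
theorem result (M : Type) [MetricSpace M] [CompactSpace M] [MeasurableSpace M] [BorelSpace M]
    [Nonempty M] (μ : Measure M) (D : Data M) (hD : D.IsSurf μ)
    [MeasurableSpace C(M, ℝ)] [BorelSpace C(M, ℝ)] (P : Measure C(M, ℝ)) [IsProbabilityMeasure P]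
    (S : Set C(M, ℝ)) (hS : Dense (Submodule.span ℝ S : Set C(M, ℝ)))
    (hP : ∀ h ∈ S, ∀ t : ℝ, P.map (fun φ => φ + t • h) ≪ P)
    (u : C(M, ℝ) → ℕ → M → ℝ) (lam : C(M, ℝ) → ℕ → ℝ)
    (hu : ∀ φ, IsEigenbasis (surf D φ) (area μ φ) (u φ) (lam φ))
    (J : ℕ → ℕ) (hJ : Tendsto J atTop atTop) :
    ∃ k : ℕ → ℕ, StrictMono k ∧ ∀ m : ℕ → ℕ, StrictMono m →
      ∀ᵐ φ ∂P, ∀ f : C(M, ℝ),
        Tendsto (fun N : ℕ => (∑ i ∈ Finset.range N, mass μ f φ (u φ (J (k (m i))))) / N) atTop
          (𝓝 (mean μ f φ)) := by
  obtain ⟨⟨J₀, hJ₀⟩, hw⟩ := Pool.Agent.Y264.QR.tTop M μ D hD P S hS hP u lam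
    fun φ => ⟨(hu φ).eig, (hu φ).mono, (hu φ).orth, (hu φ).total⟩
  have hfin : IsFiniteMeasure μ := (tFin M μ D hD).1
  have hcm := Pool.Agent.Y689.QR.cm M μ
  have hmean : ∀ f φ : C(M, ℝ), mean μ f φ = Pool.Agent.Y264.QR.avg μ f φ := fun f φ =>
    (Pool.Agent.Y264.QR.avg_eq μ f φ).symm
  have hmc : ∀ f, Continuous fun φ => mean μ f φ := fun f => by
    simp only [hmean]
    exact hcm.2.1 f
  have hml : ∀ f φ, |mean μ f φ| ≤ ‖f‖ := fun f φ => by
    rw [hmean]
    exact hcm.2.2.1 f φ
  have hul : ∀ f φ j, |mass μ f φ (u φ j)| ≤ ‖f‖ := fun f φ j => by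
    refine mass_le μ f φ _ ?_
    have := (hu φ).orth j j
    simpa using this
  -- a dense sequence of test functions
  obtain ⟨fs, hfs⟩ := TopologicalSpace.exists_dense_seq C(M, ℝ)
  -- the deviations along `J`
  obtain ⟨j0, hj0⟩ := eventually_atTop.1 (hJ.eventually_ge_atTop J₀)
  let X : ℕ → ℕ → C(M, ℝ) → ℝ := fun n j φ => mass μ (fs n) φ (u φ (J j)) - mean μ (fs n) φ
  have hXm : ∀ n j, j0 ≤ j → AEStronglyMeasurable (X n j) P := fun n j hj =>
    (hJ₀ (fs n) (J j) (hj0 j hj)).sub (hmc (fs n)).aestronglyMeasurable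
  have hXb : ∀ n j φ, |X n j φ| ≤ 2 * ‖fs n‖ := fun n j φ => by
    have h1 := abs_sub (mass μ (fs n) φ (u φ (J j))) (mean μ (fs n) φ)
    have h2 := hul (fs n) φ (J j)
    have h3 := hml (fs n) φ
    linarith
  have hXw : ∀ n, ∀ χ : C(M, ℝ) → ℝ, Integrable χ P →
      Tendsto (fun j => ∫ φ, χ φ * X n j φ ∂P) atTop (𝓝 0) := by
    intro n χ hχ
    have h1 := ((hw (fs n)).1 χ hχ).comp hJ
    have hi2 : Integrable (fun φ => χ φ * mean μ (fs n) φ) P :=
      hχ.mul_bdd (c := ‖fs n‖) (hmc (fs n)).aestronglyMeasurable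
        (Eventually.of_forall fun φ => by rw [Real.norm_eq_abs]; exact hml (fs n) φ)
    have h2 : Tendsto (fun j => ∫ φ, χ φ * mass μ (fs n) φ (u φ (J j)) ∂P -
        ∫ φ, χ φ * mean μ (fs n) φ ∂P) atTop (𝓝 0) := by
      rw [← sub_self (∫ φ, χ φ * mean μ (fs n) φ ∂P)]
      exact h1.sub_const _
    refine h2.congr' ?_
    filter_upwards [eventually_ge_atTop j0] with j hj
    have hi1 : Integrable (fun φ => χ φ * mass μ (fs n) φ (u φ (J j))) P :=
      hχ.mul_bdd (c := ‖fs n‖) (hJ₀ (fs n) (J j) (hj0 j hj))
        (Eventually.of_forall fun φ => by rw [Real.norm_eq_abs]; exact hul (fs n) φ _)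
    rw [← integral_sub hi1 hi2]
    refine integral_congr_ae (Eventually.of_forall fun φ => ?_)
    simp only [X]
    ring
  obtain ⟨k, hk, hkj, hkc⟩ := Pool.Agent.U317.SQ.selection P X (fun n => 2 * ‖fs n‖) j0 hXm hXb hXw
  refine ⟨k, hk, fun m hm => ?_⟩
  -- the test functions `fs n`
  have hn : ∀ n, ∀ᵐ φ ∂P, Tendsto (fun N : ℕ => (∑ i ∈ Finset.range N,
      X n (k (m (i + n))) φ) / N) atTop (𝓝 0) := by
    intro n
    refine Pool.Agent.U317.SQ.slln P (fun i => X n (k (m (i + n)))) (2 * ‖fs n‖)
      (fun i => hXm n _ (hkj _)) (fun i φ => hXb n _ φ) fun i j hij => ?_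
    have h1 : m (i + n) < m (j + n) := hm (by omega)
    have h2 : j + n ≤ m (j + n) := hm.le_apply
    refine (hkc n (m (i + n)) (m (j + n)) h1 (by omega)).trans ?_
    refine one_div_le_one_div_of_le (by positivity) ?_
    have : (j : ℝ) ≤ (m (j + n) : ℝ) := by exact_mod_cast (by omega : j ≤ m (j + n))
    linarith
  filter_upwards [ae_all_iff.2 hn] with φ hφ f
  -- shift
  have hφ' : ∀ n, Tendsto (fun N : ℕ => (∑ i ∈ Finset.range N, X n (k (m i)) φ) / N) atTop
      (𝓝 0) := by
    intro n
    rw [← tendsto_add_atTop_iff_nat n]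
    have h1 : Tendsto (fun N : ℕ => |∑ i ∈ Finset.range n, X n (k (m i)) φ| / (N + 1 : ℝ) +
        |(∑ i ∈ Finset.range N, X n (k (m (i + n))) φ) / N|) atTop (𝓝 0) := by
      have h2 := (tendsto_one_div_add_atTop_nhds_zero_nat (𝕜 := ℝ)).const_mul
        |∑ i ∈ Finset.range n, X n (k (m i)) φ|
      have h3 := (hφ n).abs
      rw [mul_zero] at h2
      rw [abs_zero] at h3
      simpa [div_eq_mul_inv] using h2.add h3
    refine squeeze_zero_norm' ?_ h1
    filter_upwards [eventually_ge_atTop 1] with N hN
    have hN0 : (0 : ℝ) < N := by exact_mod_cast hN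
    rcases Nat.eq_zero_or_pos n with h0 | h0
    · subst h0
      simp only [Finset.range_zero, Finset.sum_empty, abs_zero, zero_div, zero_add, add_zero,
        Real.norm_eq_abs, le_refl]
    have hn1 : (1 : ℝ) ≤ n := by exact_mod_cast h0
    rw [Real.norm_eq_abs, abs_div, Nat.cast_add, abs_of_pos (by positivity : (0:ℝ) < (N:ℝ) + n),
      Nat.add_comm N n, Finset.sum_range_add]
    have e : ∀ i, X n (k (m (n + i))) φ = X n (k (m (i + n))) φ := fun i => by rw [Nat.add_comm]
    simp only [e]
    refine (div_le_div_of_nonneg_right (abs_add_le _ _) (by positivity)).trans ?_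
    rw [add_div, abs_div, abs_of_pos hN0]
    exact add_le_add (div_le_div_of_nonneg_left (abs_nonneg _) (by positivity) (by linarith))
      (div_le_div_of_nonneg_left (abs_nonneg _) hN0 (by linarith))
  -- density
  rw [Metric.tendsto_atTop]
  intro ε hε
  obtain ⟨n, hnf⟩ : ∃ n, ‖f - fs n‖ < ε / 4 := by
    obtain ⟨n, hn⟩ := hfs.exists_dist_lt f (show 0 < ε / 4 by positivity)
    exact ⟨n, by rwa [dist_eq_norm] at hn⟩
  obtain ⟨N₀, hN₀⟩ := (Metric.tendsto_atTop.1 (hφ' n)) (ε / 2) (by positivity)
  refine ⟨max N₀ 1, fun N hN => ?_⟩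
  have hN1 : 1 ≤ N := (le_max_right _ _).trans hN
  have hN0 : (0 : ℝ) < N := by exact_mod_cast hN1
  have h1 := hN₀ N ((le_max_left _ _).trans hN)
  rw [Real.dist_eq, sub_zero] at h1
  rw [Real.dist_eq]
  have hsub : ∀ j, |mass μ f φ (u φ j) - mean μ f φ -
      (mass μ (fs n) φ (u φ j) - mean μ (fs n) φ)| ≤ ε / 2 := by
    intro j
    have hone : ∫ x, u φ j x * u φ j x ∂(area μ φ) = 1 := by
      have := (hu φ).orth j j
      simpa using this
    have hi : Integrable (fun x => u φ j x * u φ j x) (area μ φ) := by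
      by_contra h
      rw [integral_undef h] at hone
      exact zero_ne_one hone
    have hif : ∀ g : C(M, ℝ), Integrable (fun x => g x * (u φ j x) ^ 2) (area μ φ) := fun g => by
      have := hi.bdd_mul (c := ‖g‖) g.continuous.aestronglyMeasurable
        (Eventually.of_forall fun x => g.norm_coe_le_norm x)
      simpa [sq] using this
    have e1 : mass μ f φ (u φ j) - mass μ (fs n) φ (u φ j) = mass μ (f - fs n) φ (u φ j) := by
      unfold mass
      rw [← integral_sub (hif f) (hif (fs n))]
      refine integral_congr_ae (Eventually.of_forall fun x => ?_)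
      simp only [ContinuousMap.sub_apply]
      ring
    have hfa : IsFiniteMeasure (area μ φ) := by
      have hm : Continuous fun x => Real.exp (φ x) := Real.continuous_exp.comp φ.continuous
      refine isFiniteMeasure_withDensity_ofReal ?_
      have hi3 : Integrable (fun x => Real.exp (φ x)) μ := by
        refine Integrable.of_bound hm.aestronglyMeasurable (Real.exp ‖φ‖)
          (Eventually.of_forall fun x => ?_)
        rw [Real.norm_eq_abs, abs_of_pos (Real.exp_pos _)]
        exact Real.exp_le_exp.2 ((le_abs_self _).trans (φ.norm_coe_le_norm x))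
      exact hi3.2
    have hic : ∀ g : C(M, ℝ), Integrable (fun x => g x) (area μ φ) := fun g =>
      Integrable.of_bound g.continuous.aestronglyMeasurable ‖g‖
        (Eventually.of_forall fun x => g.norm_coe_le_norm x)
    have e2 : mean μ f φ - mean μ (fs n) φ = mean μ (f - fs n) φ := by
      unfold mean
      rw [← sub_div, ← integral_sub (hic f) (hic (fs n))]
      rfl
    have h3 : mass μ f φ (u φ j) - mean μ f φ - (mass μ (fs n) φ (u φ j) - mean μ (fs n) φ) =
        mass μ (f - fs n) φ (u φ j) - mean μ (f - fs n) φ := by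
      rw [← e1, ← e2]
      ring
    rw [h3]
    have h4 := hul (f - fs n) φ j
    have h5 := hml (f - fs n) φ
    have h6 := abs_sub (mass μ (f - fs n) φ (u φ j)) (mean μ (f - fs n) φ)
    linarith
  have e3 : (∑ i ∈ Finset.range N, mass μ f φ (u φ (J (k (m i))))) / N - mean μ f φ =
      (∑ i ∈ Finset.range N, (mass μ f φ (u φ (J (k (m i)))) - mean μ f φ -
        (mass μ (fs n) φ (u φ (J (k (m i)))) - mean μ (fs n) φ))) / N +
      (∑ i ∈ Finset.range N, X n (k (m i)) φ) / N := by
    rw [← add_div, ← Finset.sum_add_distrib]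
    have : ∀ i, mass μ f φ (u φ (J (k (m i)))) - mean μ f φ -
        (mass μ (fs n) φ (u φ (J (k (m i)))) - mean μ (fs n) φ) + X n (k (m i)) φ =
        mass μ f φ (u φ (J (k (m i)))) - mean μ f φ := fun i => by
      simp only [X]
      ring
    simp only [this]
    rw [Finset.sum_sub_distrib, Finset.sum_const, Finset.card_range, nsmul_eq_mul, sub_div,
      mul_div_cancel_left₀ _ hN0.ne']
  rw [e3]
  refine lt_of_le_of_lt (abs_add_le _ _) ?_
  have h7 : |(∑ i ∈ Finset.range N, (mass μ f φ (u φ (J (k (m i)))) - mean μ f φ -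
        (mass μ (fs n) φ (u φ (J (k (m i)))) - mean μ (fs n) φ))) / N| ≤ ε / 2 := by
    rw [abs_div, abs_of_pos hN0, div_le_iff₀ hN0]
    refine (Finset.abs_sum_le_sum_abs _ _).trans ((Finset.sum_le_sum fun i _ => hsub _).trans ?_)
    rw [Finset.sum_const, Finset.card_range, nsmul_eq_mul, mul_comm]
  linarith

end Pool.Agent.Results.MP_07c750_an.SparseSequences
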